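import Pool.Agent.Helper28.HA.D1

/-!
MP_143e28_ag, Q1 for hyperelliptic curves in odd characteristic: the polynomial exists, and it is `8 T`.
-/

set_option autoImplicit false

namespace Pool.Agent.Results.MP_143e28_ag.HyperellipticOdd

open Polynomial Pool.Agent.Helper28.HA

/-- `n` is the largest number of automorphisms of a hyperelliptic curve of genus `g` over `k`: all these groups are
finite of order at most `n`, and one of them has order `n` -/
def IsMaxHyp.{u} (k : Type u) [Field k] (g n : ℕ) : Prop :=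
  (∀ (F : Type u) [Field F] [Algebra k F], IsHyperelliptic k F g →
    Finite (F ≃ₐ[k] F) ∧ Nat.card (F ≃ₐ[k] F) ≤ n) ∧
  ∃ (F : Type u) (_ : Field F) (_ : Algebra k F), IsHyperelliptic k F g ∧ Nat.card (F ≃ₐ[k] F) = n

theorem isMax_muHyp.{u} (p : ℕ) [Fact p.Prime] (hp : p ≠ 2) (k : Type u) [Field k] [IsAlgClosed k]
    [CharP k p] (g : ℕ) (hg : 2 ≤ g) : IsMaxHyp k g (muHyp k g) := by
  have h2 : (2 : k) ≠ 0 := by
    intro h
    have h' : ((2 : ℕ) : k) = 0 := by exact_mod_cast h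
    rw [CharP.cast_eq_zero_iff k p] at h'
    exact hp ((Nat.prime_dvd_prime_iff_eq Fact.out Nat.prime_two).mp h')
  have hb : BddAbove {n : ℕ | ∃ (F : Type u) (_ : Field F) (_ : Algebra k F),
      IsHyperelliptic k F g ∧ n = Nat.card (F ≃ₐ[k] F)} := by
    refine ⟨2 * (2 * g + 2) ^ 3, ?_⟩
    rintro n ⟨F, _, _, hF, rfl⟩
    exact (auto_finite h2 hg hF).2
  have hl := lower p hp k hg
  have hne : {n : ℕ | ∃ (F : Type u) (_ : Field F) (_ : Algebra k F),
      IsHyperelliptic k F g ∧ n = Nat.card (F ≃ₐ[k] F)}.Nonempty := by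
    rw [Set.nonempty_iff_ne_empty]
    intro h0
    have : muHyp k g = 0 := by
      unfold muHyp
      rw [h0]
      simp
    omega
  constructor
  · intro F _ _ hF
    refine ⟨(auto_finite h2 hg hF).1, ?_⟩
    exact le_csSup hb ⟨F, _, _, hF, rfl⟩
  · obtain ⟨F, i1, i2, hF, hn⟩ := Nat.sSup_mem hne hb
    exact ⟨F, i1, i2, hF, hn.symm⟩

theorem result.{u} (p : ℕ) [Fact p.Prime] (hp : p ≠ 2) (k : Type u) [Field k] [IsAlgClosed k]
    [CharP k p] :
    ∃ mu : ℕ → ℕ, (∀ g : ℕ, 2 ≤ g → IsMaxHyp k g (mu g)) ∧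
      ∀ M : ℚ[X], ((∀ g : ℕ, 2 ≤ g → M.eval (g : ℚ) ≤ mu g) ∧
        {g : ℕ | 2 ≤ g ∧ (mu g : ℚ) = M.eval (g : ℚ)}.Infinite) ↔ M = C 8 * X :=
  ⟨muHyp k, fun g hg => isMax_muHyp p hp k g hg, fun M => main_poly p hp k M⟩

end Pool.Agent.Results.MP_143e28_ag.HyperellipticOdd
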