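import Pool.Agent.Helper54.HZ.Final3

/-!
# MP_143e28_ag: Galois covers of the line of prime degree, trigonal curves: the polynomial is `8 T`
-/

set_option autoImplicit false

namespace Pool.Agent.Results.MP_143e28_ag.PrimeCovers

open Polynomial Pool.Agent.Helper54.HZ

/-- Let `k` be algebraically closed of odd characteristic `p` and `2 ∈ S`.  `mu g = muLow k p S g` is the supremum (in
`ℕ ∪ {∞}`) of the numbers of automorphisms of the curves of genus `g` over `k` which are Galois covers of the line of prime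
degree `n ∈ S` or, if `p ≥ 5` and `3 ∈ S`, have a map of degree `3` to the line.  Then `mu g ≥ 8 g` for all `g ≥ 2`,
`mu g = 8 g` for the genera in the second statement, and a polynomial `M` satisfies `M g ≤ mu g` for all `g ≥ 2` and
`M g = mu g` for infinitely many `g ≥ 2` iff `M = 8 X`. -/
theorem result.{u} (p : ℕ) [Fact p.Prime] (hp : p ≠ 2) (k : Type u) [Field k] [IsAlgClosed k]
    [CharP k p] (S : Set ℕ) (hS : 2 ∈ S) :
    (∀ g : ℕ, 2 ≤ g → ((8 * g : ℕ) : ℕ∞) ≤ muLow k p S g) ∧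
    (∀ g : ℕ, g.Prime → ¬ (2 * g + 1).Prime → p ∣ g + 1 → ¬ p ^ 2 ∣ g + 1 → 3 * p ^ 2 < g →
      muLow k p S g = ((8 * g : ℕ) : ℕ∞)) ∧
    ∀ M : ℚ[X], ((∀ g : ℕ, 2 ≤ g → ∀ m : ℕ, muLow k p S g = m → M.eval (g : ℚ) ≤ m) ∧
      {g : ℕ | 2 ≤ g ∧ ∃ m : ℕ, muLow k p S g = m ∧ M.eval (g : ℚ) = m}.Infinite) ↔
    M = C 8 * X :=
  ⟨fun _ hg => lower_low p hp k hg S hS,
    fun _ h1 h2 h3 h4 h5 => exact_low p hp k h1 h2 h3 h4 h5 S hS, fun M => main_low p hp k S hS M⟩

end Pool.Agent.Results.MP_143e28_ag.PrimeCovers
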